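import Pool.Agent.V11128.CXL.I
import Pool.Agent.V1167.PP.Nat

/-!
# MP_069854_nt: shifted moments near the critical line, and all homogeneous functions of shifted values

Let `k ≥ 3`, let `δ(T) → 0` and `δ(T) log T → ∞`, and let `S` be a countable set of shifts. There are sets
`E(T) ⊆ [0, T]` of measure `o(δ^(2k) T)`, at each point of which
`|ζ(1/2 + δ + i(t + xδ))| > δ^(-(k+2)/2)` for some `x ∈ S ∪ {0}`, off which the following is true.

* For all `α` with `α, -α ∈ S`, the mean of `ζ(1/2 + δ + iαδ + it)^k ζ(1/2 + δ + iαδ - it)^k` is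
  asymptotic to `a_k (2δ(1 + iα))^(-k²)`.
* For all `a_1, ..., a_n ∈ S` and for all continuous real functions `Φ` on `ℂ^n` with
  `Φ(λz) = |λ|^(2k) Φ(z)` for all complex `λ`, the mean of
  `Φ(ζ(1/2 + δ + i(t + a_1 δ)), ..., ζ(1/2 + δ + i(t + a_n δ)))` is asymptotic to
  `a_k (2δ)^(-k²) E Φ(exp z_1, ..., exp z_n)`, where `z` is the circular complex normal vector with means
  `-k ℓ(a_j)` and covariances `ℓ(a_j) + ℓ(-a_i) - ℓ(a_j - a_i)`, `ℓ(x) = log (1 + ix/2)`.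

The first point is a shifted moment of the problem with the critical line replaced by the line
`Re s = 1/2 + δ` and the shift `α / log T` by `αδ`; the second point contains for example the moments
of order `2k` of `ζ(1/2 + δ + i(t + αδ)) ± ζ(1/2 + δ + i(t - αδ))`, and the means of
`|Re (ζ(1/2 + δ + iαδ + it) ζ(1/2 + δ + iαδ - it))|^k`.
-/

set_option autoImplicit false

namespace Pool.Agent.Results.MP_069854_nt.HomogeneousMoments

open Filter MeasureTheory Topology ProbabilityTheory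
open Pool.Agent.Y753.SHR (zr mixed_small zeros_ae)
open Pool.Agent.H306R2 (aF aF_pos)

/-- The arithmetic factor `a_k = ∏_p (1 - 1/p)^(k²) ∑_m C(m + k - 1, m)² p^(-m)`. -/
noncomputable def ak (k : ℕ) : ℝ :=
  ∏' p : Nat.Primes, ((1 - 1 / (p : ℝ)) ^ (k ^ 2) * ∑' m : ℕ, ((m + k - 1).choose m : ℝ) ^ 2 * (1 / (p : ℝ)) ^ m)

/-- `ζ(1/2 + δ + i(t + xδ))`. -/
noncomputable def Z (δ x t : ℝ) : ℂ :=
  riemannZeta (1 / 2 + δ + ((t + x * δ : ℝ) : ℂ) * Complex.I)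

/-- `Φ(λz) = |λ|^(2k) Φ(z)` for all complex `λ`. -/
def IsHom (k : ℕ) {n : ℕ} (Φ : (Fin n → ℂ) → ℝ) : Prop :=
  ∀ (l : ℂ) (z : Fin n → ℂ), Φ (fun j => l * z j) = ‖l‖ ^ (2 * k) * Φ z

/-- `ℓ(x) = log (1 + ix/2)`, principal determination. -/
noncomputable def ell (x : ℝ) : ℂ := Complex.log (1 + Complex.I * (x : ℂ) / 2)

/-- The means `-k ℓ(a_j)` of the limit law. -/
noncomputable def mean (k : ℕ) {n : ℕ} (a : Fin n → ℝ) (j : Fin n) : ℂ := -(k : ℂ) * ell (a j)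

/-- The covariances `E (z_j - m_j) conj (z_i - m_i)` of the limit law. -/
noncomputable def cov {n : ℕ} (a : Fin n → ℝ) (j i : Fin n) : ℂ :=
  ell (a j) + ell (-a i) - ell (a j - a i)

/-- `ρ` is the circular complex normal law on `ℂ^n` with mean `m` and covariance matrix `K`: for each
`c ∈ ℂ^n`, the real part of `∑ c_j z_j` has the normal law with mean `Re ∑ c_j m_j` and variance
`(1/2) Re ∑ c_j conj(c_i) K_ji ≥ 0`. -/
def IsCNormal {n : ℕ} (m : Fin n → ℂ) (K : Fin n → Fin n → ℂ) (ρ : ProbabilityMeasure (Fin n → ℂ)) :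
    Prop :=
  ∀ c : Fin n → ℂ, 0 ≤ (∑ j, ∑ i, c j * (starRingEnd ℂ) (c i) * K j i).re / 2 ∧
    (ρ : Measure (Fin n → ℂ)).map (fun z => (∑ j, c j * z j).re) =
      gaussianReal (∑ j, c j * m j).re ((∑ j, ∑ i, c j * (starRingEnd ℂ) (c i) * K j i).re / 2).toNNReal

lemma zr_one {w : ℝ → ℂ} {δ x t : ℝ} (k : ℕ) (h : Complex.exp (w (t + x * δ)) = Z δ x t) :
    zr w δ (fun _ : Fin 1 => (k : ℝ)) (fun _ => x) t = Z δ x t ^ k := by
  unfold zr
  rw [Fin.prod_univ_one, ← h, ← Complex.exp_nat_mul]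
  simp

lemma conj_Z (δ x t : ℝ) : (starRingEnd ℂ) (Z δ (-x) t) =
    riemannZeta (1 / 2 + δ + Complex.I * ((x * δ : ℝ) : ℂ) - Complex.I * t) := by
  unfold Z
  rw [← riemannZeta_conj]
  congr 1
  simp only [map_add, map_mul, map_div₀, map_one, Complex.conj_ofReal, Complex.conj_I, map_ofNat]
  push_cast
  ring

lemma Z_eq (δ x t : ℝ) : Z δ x t =
    riemannZeta (1 / 2 + δ + Complex.I * ((x * δ : ℝ) : ℂ) + Complex.I * t) := by
  unfold Z
  congr 1
  push_cast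
  ring

/-- Let `k ≥ 3`, let `δ(T) → 0` and `δ(T) log T → ∞`, and let `S` be a countable set of shifts. There are
sets `E(T) ⊆ [0, T]` of measure `o(T δ^(2k))`, at each point of which
`|ζ(1/2 + δ + i(t + xδ))| > δ^(-(k+2)/2)` for some `x ∈ S ∪ {0}`, such that:

(1) for all `α` with `α, -α ∈ S`,
`(2δ)^(k²) (1/T) ∫_{[0,T] \ E(T)} ζ(1/2 + δ + iαδ + it)^k ζ(1/2 + δ + iαδ - it)^k dt → a_k / (1 + iα)^(k²)`;

(2) for all `a_1, ..., a_n ∈ S`, with the circular complex normal law `ρ` of mean `-k ℓ(a_j)` and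
covariance `ℓ(a_j) + ℓ(-a_i) - ℓ(a_j - a_i)`: for all continuous `Φ` with `Φ(λz) = |λ|^(2k) Φ(z)`, the
function `Φ(exp z_1, ..., exp z_n)` is `ρ`-integrable and

`(2δ)^(k²) (1/T) ∫_{[0,T] \ E(T)} Φ(ζ(1/2 + δ + i(t + a_1 δ)), ..., ζ(1/2 + δ + i(t + a_n δ))) dt`
`→ a_k ∫ Φ(exp z_1, ..., exp z_n) dρ(z)`. -/
theorem result (k : ℕ) (hk : 3 ≤ k) (δ : ℝ → ℝ) (hδ : Tendsto δ atTop (𝓝 0))
    (hδL : Tendsto (fun T : ℝ => δ T * Real.log T) atTop atTop) (S : Set ℝ) (hS : S.Countable) :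
    0 < ak k ∧ ∃ E : ℝ → Set ℝ,
      (∀ T, MeasurableSet (E T) ∧ E T ⊆ Set.Icc 0 T ∧ ∀ t ∈ E T, ∃ x ∈ insert 0 S,
        (δ T) ^ (-(((k : ℝ) + 2) / 2)) < ‖Z (δ T) x t‖) ∧
      Tendsto (fun T => (volume (E T)).toReal / (T * (δ T) ^ (2 * k))) atTop (𝓝 0) ∧
      (∀ α : ℝ, α ∈ S → -α ∈ S →
        Tendsto (fun T : ℝ => (((2 * δ T) ^ (k ^ 2) / T : ℝ) : ℂ) *
          ∫ t in Set.Icc 0 T \ E T,
            riemannZeta (1 / 2 + δ T + Complex.I * ((α * δ T : ℝ) : ℂ) + Complex.I * t) ^ k *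
            riemannZeta (1 / 2 + δ T + Complex.I * ((α * δ T : ℝ) : ℂ) - Complex.I * t) ^ k) atTop
          (𝓝 ((ak k : ℂ) / (1 + Complex.I * α) ^ (k ^ 2)))) ∧
      ∀ (n : ℕ) (a : Fin n → ℝ), (∀ j, a j ∈ S) →
        ∃ ρ : ProbabilityMeasure (Fin n → ℂ), IsCNormal (mean k a) (cov a) ρ ∧
          ∀ Φ : (Fin n → ℂ) → ℝ, Continuous Φ → IsHom k Φ →
            Integrable (fun z => Φ (fun j => Complex.exp (z j))) (ρ : Measure (Fin n → ℂ)) ∧
            Tendsto (fun T : ℝ => (2 * δ T) ^ (k ^ 2) / T *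
              ∫ t in Set.Icc 0 T \ E T, Φ (fun j => Z (δ T) (a j) t)) atTop
              (𝓝 (ak k * ∫ z, Φ (fun j => Complex.exp (z j)) ∂(ρ : Measure (Fin n → ℂ)))) := by
  have hk3 : (3 : ℝ) ≤ (k : ℝ) := by exact_mod_cast hk
  have hak : ak k = aF (k : ℝ) := (Pool.Agent.V1167.PP.aF_nat k (by omega)).symm
  have e4 : (2 * (k : ℝ)) / 2 = (k : ℝ) := by ring
  have e5 : ((k : ℝ) ^ 2) = ((k ^ 2 : ℕ) : ℝ) := by push_cast; ring
  obtain ⟨R, hR⟩ : ∃ R : Set ℝ, R = {x : ℝ | 0 < x ∧ ∃ r : ℚ, x = (r : ℝ)} := ⟨_, rfl⟩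
  have hRc : R.Countable := by
    refine (Set.countable_range fun r : ℚ => (r : ℝ)).mono ?_
    rw [hR]
    rintro x ⟨_, r, hr⟩
    exact ⟨r, hr.symm⟩
  have hR0 : ∀ r ∈ R, 0 < r := fun r hr => by rw [hR] at hr; exact hr.1
  obtain ⟨E, w, hE, hvol, hw, hm⟩ := mixed_small Pool.Agent.Y901.SHR.done Pool.Agent.Y753.SHR.star hδ hδL
    (c := ((k : ℝ) - 2) / 2) (by linarith) (hS.insert 0) hRc hR0
  have e1 : (4 + 4 * (((k : ℝ) - 2) / 2) : ℝ) = ((2 * k : ℕ) : ℝ) := by push_cast; ring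
  have e2 : (-(2 + ((k : ℝ) - 2) / 2) : ℝ) = -(((k : ℝ) + 2) / 2) := by ring
  rw [e1] at hvol
  simp_rw [Real.rpow_natCast] at hvol
  have hmemR : ∀ x : ℝ, Pool.Agent.V11128.CXL.Ad (2 * (k : ℝ)) x → x ∈ R := by
    rintro x ⟨h0, r, hr | hr⟩
    · rw [hR]
      exact ⟨h0, r, hr⟩
    · rw [hR]
      refine ⟨h0, (k : ℚ) + r, ?_⟩
      rw [hr]
      push_cast
      ring
  have hkR : (k : ℝ) ∈ R := by
    rw [hR]
    exact ⟨by linarith, k, by simp⟩
  refine ⟨?_, E, fun T => ⟨(hE T).1, (hE T).2.1, fun t ht => ?_⟩, hvol, fun α h1 h2 => ?_, fun n a ha => ?_⟩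
  · rw [hak]
    exact aF_pos (by linarith)
  · rw [← e2]
    exact (hE T).2.2.2 t ht
  · have H := (hm 1 1 (fun _ => (k : ℝ)) (fun _ => α) (fun _ => (k : ℝ)) (fun _ => -α) (k : ℝ) le_rfl le_rfl (by simp)
      (by simp) (fun _ => hkR) (fun _ => Set.mem_insert_of_mem _ h1) (fun _ => hkR)
      (fun _ => Set.mem_insert_of_mem _ h2)).1 (Or.inr (by linarith))
    rw [hak]
    have hlim : ((aF (k : ℝ) : ℂ) * ∏ _j : Fin 1, ∏ _i : Fin 1, (1 + Complex.I * ((α - -α : ℝ) : ℂ) / 2) ^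
        (-(((k : ℝ) * (k : ℝ) : ℝ) : ℂ))) = (aF (k : ℝ) : ℂ) / (1 + Complex.I * α) ^ (k ^ 2) := by
      rw [Fin.prod_univ_one, Fin.prod_univ_one]
      have e6 : (1 + Complex.I * ((α - -α : ℝ) : ℂ) / 2) = 1 + Complex.I * α := by push_cast; ring
      have e7 : (-(((k : ℝ) * (k : ℝ) : ℝ) : ℂ)) = -((k ^ 2 : ℕ) : ℂ) := by push_cast; ring
      rw [e6, e7, Complex.cpow_neg, Complex.cpow_natCast, div_eq_mul_inv]
    rw [hlim] at H
    refine H.congr' ?_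
    filter_upwards [hw] with T hT
    rw [e5, Real.rpow_natCast]
    congr 1
    refine integral_congr_ae ?_
    refine ae_restrict_of_ae ?_
    filter_upwards [zeros_ae (δ T) (α * δ T), zeros_ae (δ T) (-α * δ T)] with t ht1 ht2
    rw [zr_one k (hT _ ht1), zr_one k (hT _ ht2), map_pow, conj_Z, Z_eq]
  · have hmemS : ∀ x : ℝ, (x = 0 ∨ ∃ i, x = a i) → x ∈ insert 0 S := by
      rintro x (h | ⟨i, h⟩)
      · rw [h]; exact Set.mem_insert _ _
      · rw [h]; exact Set.mem_insert_of_mem _ (ha i)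
    obtain ⟨ρ, hρ, hF⟩ := Pool.Agent.V11128.CXL.core_hom hδ hδL (D := fun T => Set.Icc 0 T \ E T)
      (fun T => ⟨measurableSet_Icc.diff (hE T).1, Set.sdiff_subset⟩) (fun T => (hE T).2.2.1)
      (β := 2 * (k : ℝ)) (by linarith) a (by
        filter_upwards [hw] with T hT
        refine ae_restrict_of_ae (ae_all_iff.mpr fun j => ?_)
        filter_upwards [zeros_ae (δ T) ((Fin.cons 0 a : Fin (n + 1) → ℝ) j * δ T)] with t ht
        exact hT _ ht)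
      (fun k' l κ x τ y hk hl hκs hτs hκ hx hτ hy =>
        (hm k' l κ x τ y (2 * (k : ℝ) / 2) hk hl hκs hτs (fun j => hmemR _ (hκ j)) (fun j => hmemS _ (hx j))
          (fun j => hmemR _ (hτ j)) (fun j => hmemS _ (hy j))).1 (Or.inr (by linarith)))
    obtain ⟨ρ', h1, h2⟩ := Pool.Agent.V11128.CXL.toC (2 * (k : ℝ)) a hρ
    refine ⟨ρ', ?_, fun Φ hc hh => ?_⟩
    · have e3 : mean k a = fun j => -(((2 * (k : ℝ) : ℝ) : ℂ) / 2 : ℂ) * ell (a j) := by
        funext j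
        unfold mean
        congr 1
        push_cast
        ring
      rw [e3]
      exact h1
    · obtain ⟨h3, h4⟩ := hF Φ hc (fun l z => by
        have := hh l z
        rw [this, ← Real.rpow_natCast]
        push_cast
        rfl)
      obtain ⟨h5, h6⟩ := h2 Φ hc
      refine ⟨h5 h3, ?_⟩
      rw [h6]
      rw [e4, e5] at h4
      simp_rw [Real.rpow_natCast] at h4
      rw [hak]
      exact h4

end Pool.Agent.Results.MP_069854_nt.HomogeneousMoments
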